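import Pool.Agent.KS6_84.OB.P2d

/-!
Operator blocks in Lorentz spaces: `D(L^{p,q})` is non-empty for all `1 < p < ∞`, `1 < q < ∞`,
`(p,q) ≠ (2,2)`.
-/

set_option autoImplicit false

open scoped ENNReal
open Pool.Agent.KS6_84.OBL

/-- For every `p > 1` and every `1 < q < ∞`, `(p,q) ≠ (2,2)`, some bounded operator on `L^{p,q}` has
all its blocks over sets of positive measure bounded away from zero; hence the conjectured
equivalence fails. -/
theorem Pool.Agent.Results.MP_027bd7_an.LorentzBlocks.result :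
    (∀ (p : ℝ) (q : ℝ≥0∞), 1 < p → 1 < q → q ≠ ∞ → ¬ (p = 2 ∧ q = 2) → (D p q).Nonempty) ∧
    ¬ ∀ (p : ℝ) (q : ℝ≥0∞), 1 < p → 1 ≤ q →
      ((D p q).Nonempty ↔
        (1 ≤ q ∧ q ≤ ENNReal.ofReal p ∧ p ≤ 2) ∨ (2 ≤ p ∧ ENNReal.ofReal p ≤ q)) := by
  have h1 : ∀ (p : ℝ) (q : ℝ≥0∞), 1 < p → 1 < q → q ≠ ∞ → ¬ (p = 2 ∧ q = 2) →
      (D p q).Nonempty := by
    intro p q hp hq hqt hpq
    have hq' : 1 < q.toReal := by
      rw [← ENNReal.toReal_one]
      exact (ENNReal.toReal_lt_toReal ENNReal.one_ne_top hqt).2 hq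
    rw [← ENNReal.ofReal_toReal hqt]
    by_cases hp2 : p = 2
    · subst hp2
      refine nonempty_two hq' fun h => hpq ⟨rfl, ?_⟩
      rw [← ENNReal.ofReal_toReal hqt, h]
      norm_num
    · exact nonempty_ne_two hp hp2 hq'
  refine ⟨h1, fun hall => ?_⟩
  rcases (hall (3 / 2) 3 (by norm_num) (by norm_num)).1
    (h1 (3 / 2) 3 (by norm_num) (by norm_num) (by norm_num) (by norm_num)) with ⟨_, h3, _⟩ | ⟨h3, _⟩
  · rw [show (3:ℝ≥0∞) = ENNReal.ofReal 3 by norm_num,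
      ENNReal.ofReal_le_ofReal_iff (by norm_num)] at h3
    norm_num at h3
  · norm_num at h3
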